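import Pool.Agent.Lib.MP_a60258_s6.Iface

/-!
# Module SOS: sums of squares whose coefficients depend on the content of the first legs
-/

open MvPolynomial Finset

namespace A602.S6.H15

section
variable {α : Type} [Fintype α] [DecidableEq α]

lemma ct_append {d e : ℕ} (u : Fin d → α) (u' : Fin e → α) :
    ct (Fin.append u u') = ct u + ct u' := by
  funext a
  simp only [ct, Pi.add_apply, Finset.card_filter]
  rw [Fin.sum_univ_add]
  congr 1
  · refine Finset.sum_congr rfl fun i _ => ?_
    rw [Fin.append_left]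
  · refine Finset.sum_congr rfl fun i _ => ?_
    rw [Fin.append_right]

lemma sum_ct {n : ℕ} (u : Fin n → α) : ∑ a, ct u a = n := by
  simp only [ct]
  have h := Finset.card_eq_sum_card_fiberwise (f := u) (s := (Finset.univ : Finset (Fin n)))
    (t := (Finset.univ : Finset α)) (fun x _ => Finset.mem_coe.mpr (Finset.mem_univ _))
  rw [Finset.card_univ, Fintype.card_fin] at h
  exact h.symm

lemma Lf_congr {n : ℕ} {F G : (α → ℕ) → ℝ} (h : ∀ y, ∑ a, y a = n → F y = G y) :
    Lf n F = Lf n G := by
  unfold Lf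
  refine Finset.sum_congr rfl fun y hy => ?_
  rw [Finset.mem_piAntidiag] at hy
  rw [h y hy.1]

lemma Lf_mul (n : ℕ) (c : ℝ) (F : (α → ℕ) → ℝ) : Lf n (fun y => c * F y) = c * Lf n F := by
  unfold Lf
  rw [Finset.mul_sum]
  exact Finset.sum_congr rfl fun y _ => by ring

lemma Lf_sum {ι : Type} (s : Finset ι) (n : ℕ) (F : ι → (α → ℕ) → ℝ) :
    Lf n (fun y => ∑ i ∈ s, F i y) = ∑ i ∈ s, Lf n (F i) := by
  unfold Lf
  rw [Finset.sum_comm]
  exact Finset.sum_congr rfl fun y _ => by rw [Finset.mul_sum]

/-- `1 / b! * desc (y, b) = choose (y, b)` -/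
lemma ifac_desc (b y : α → ℕ) :
    ifac b * ∏ a, ((y a).descFactorial (b a) : ℝ) = ∏ a, ((y a).choose (b a) : ℝ) := by
  unfold ifac
  rw [← Finset.prod_mul_distrib]
  refine Finset.prod_congr rfl fun a _ => ?_
  rw [Nat.descFactorial_eq_factorial_mul_choose, Nat.cast_mul, ← mul_assoc,
    inv_mul_cancel₀ (Nat.cast_ne_zero.mpr (Nat.factorial_ne_zero _)), one_mul]

/-- **The double sum over words** -/
lemma words (hs : ShfStatement) (hw : WrdStatement) (d e : ℕ) (G K : (α → ℕ) → ℝ) :
    ∑ W : Fin d → α, ∑ W' : Fin e → α, K (ct W) * G (ct W + ct W')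
      = (d.factorial : ℝ) * e.factorial * Lf (d + e) fun y =>
        (∑ b ∈ Finset.piAntidiag Finset.univ d, (∏ c, ((y c).choose (b c) : ℝ)) * K b) * G y := by
  have h1 : ∀ b : α → ℕ, ∑ W' : Fin e → α, K b * G (b + ct W')
      = K b * ((e.factorial : ℝ) * Lf e fun y => G (b + y)) := fun b => by
    rw [← Finset.mul_sum, hw α e fun y => G (b + y)]
  have h2 : ∑ W : Fin d → α, ∑ W' : Fin e → α, K (ct W) * G (ct W + ct W')
      = ∑ W : Fin d → α, (fun b => K b * ((e.factorial : ℝ) * Lf e fun y => G (b + y))) (ct W) :=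
    Finset.sum_congr rfl fun W _ => h1 (ct W)
  rw [h2, hw α d fun b => K b * ((e.factorial : ℝ) * Lf e fun y => G (b + y)), mul_assoc]
  congr 1
  have h3 : ∀ b : α → ℕ, ∑ a, b a = d →
      K b * ((e.factorial : ℝ) * Lf e fun y => G (b + y))
        = (e.factorial : ℝ) * Lf (d + e) fun y =>
          K b * ((∏ a, ((y a).descFactorial (b a) : ℝ)) * G y) := fun b hb => by
    rw [hs α b e G, hb, Nat.add_comm e d, Lf_mul]
    ring
  rw [Lf_congr h3, Lf_mul]
  congr 1
  have h4 : (fun y : α → ℕ => (∑ b ∈ Finset.piAntidiag Finset.univ d,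
      (∏ c, ((y c).choose (b c) : ℝ)) * K b) * G y)
      = fun y => ∑ b ∈ Finset.piAntidiag Finset.univ d,
        ifac b * (K b * ((∏ a, ((y a).descFactorial (b a) : ℝ)) * G y)) := by
    funext y
    rw [Finset.sum_mul]
    refine Finset.sum_congr rfl fun b _ => ?_
    rw [← ifac_desc b y]
    ring
  rw [h4, Lf_sum]
  conv_lhs => unfold Lf
  refine Finset.sum_congr rfl fun b _ => ?_
  rw [Lf_mul]
  rfl

end

lemma row_ct {d : ℕ} (W : Fin d → Fin 3 × Fin 3) : rowS (ct W) = ct fun i => (W i).1 := by
  funext a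
  simp only [rowS, ct, Finset.card_filter]
  rw [Finset.sum_comm]
  refine Finset.sum_congr rfl fun i _ => ?_
  have h : ∀ j : Fin 3, (if W i = (a, j) then 1 else 0)
      = if (W i).2 = j then (if (W i).1 = a then 1 else 0) else 0 := fun j => by
    by_cases h1 : (W i).1 = a <;> by_cases h2 : (W i).2 = j <;>
      simp [Prod.ext_iff, h1, h2]
  rw [Finset.sum_congr rfl fun j _ => h j, Finset.sum_ite_eq]
  simp

lemma col_ct {d : ℕ} (W : Fin d → Fin 3 × Fin 3) : colS (ct W) = ct fun i => (W i).2 := by
  funext a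
  simp only [colS, ct, Finset.card_filter]
  rw [Finset.sum_comm]
  refine Finset.sum_congr rfl fun i _ => ?_
  have h : ∀ j : Fin 3, (if W i = (j, a) then 1 else 0)
      = if (W i).1 = j then (if (W i).2 = a then 1 else 0) else 0 := fun j => by
    by_cases h1 : (W i).1 = j <;> by_cases h2 : (W i).2 = a <;>
      simp [Prod.ext_iff, h1, h2]
  rw [Finset.sum_congr rfl fun j _ => h j, Finset.sum_ite_eq]
  simp

lemma app_const (P : R) : app (fun _ => P) (fun _ => P) = fun _ => P := by
  refine fin6_ext (fun u => ?_) fun u => ?_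
  · rw [app_inl]
  · rw [app_inr]

/-- a pair of words is a word of pairs -/
lemma sum_pairs {β γ : Type} [Fintype β] [Fintype γ] (d : ℕ)
    (F : (Fin d → β) → (Fin d → γ) → ℝ) :
    ∑ u : Fin d → β, ∑ v : Fin d → γ, F u v
      = ∑ W : Fin d → β × γ, F (fun i => (W i).1) fun i => (W i).2 := by
  classical
  rw [← Fintype.sum_prod_type' F]
  exact (Equiv.sum_comp (Equiv.arrowProdEquivProdArrow (Fin d) (fun _ => β) fun _ => γ)
    fun x => F x.1 x.2).symm

/-- **Module SOS** -/
theorem sos (hs : ShfStatement) (hw : WrdStatement) (hg : GluStatement) : SosStatement := by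
  intro S P n st d e Q φ
  have key : ∀ q : Fin Q, 0 ≤ ∑ s, ∑ t, ifac (st s) * ifac (st t)
      * Lf (d + e) fun y : Fin 3 × Fin 3 → ℕ =>
        (∑ b ∈ Finset.piAntidiag Finset.univ d, (∏ c, ((y c).choose (b c) : ℝ))
          * (φ q s (rowS b) * φ q t (colS b))) * Vx S P (mk (st s) (st t) y) := by
    intro q
    have h := sos_pval (S := S)
      (ι := Fin n × ((Fin d → Fin 3) × (Fin e → Fin 3)))
      (fun x => inL (st x.1)) (fun x => ifac (st x.1) * φ q x.1 (ct x.2.1)) (d + e)
      (fun x => List.ofFn (Fin.append x.2.1 x.2.2)) (fun _ _ => P)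
      (fun x => List.length_ofFn)
    simp only [app_const] at h
    have h1 : ∀ x y : Fin n × ((Fin d → Fin 3) × (Fin e → Fin 3)),
        pval S (glue (List.ofFn (Fin.append x.2.1 x.2.2)) (List.ofFn (Fin.append y.2.1 y.2.2))
          (inL (st x.1)) (inL (st y.1))) (fun _ => P)
          = Vx S P (mk (st x.1) (st y.1)
            (ct (fun i => (x.2.1 i, y.2.1 i)) + ct fun i => (x.2.2 i, y.2.2 i))) := by
      intro x y
      rw [hg S P (d + e) _ _ (st x.1) (st y.1), ← ct_append]
      congr 3
      funext i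
      refine Fin.addCases (fun i => ?_) (fun i => ?_) i
      · rw [Fin.append_left, Fin.append_left, Fin.append_left]
      · rw [Fin.append_right, Fin.append_right, Fin.append_right]
    simp only [h1] at h
    simp only [Fintype.sum_prod_type] at h
    have h2 : ∀ s t : Fin n,
        ∑ u : Fin d → Fin 3, ∑ u' : Fin e → Fin 3, ∑ v : Fin d → Fin 3, ∑ v' : Fin e → Fin 3,
          ifac (st s) * φ q s (ct u) * (ifac (st t) * φ q t (ct v))
            * Vx S P (mk (st s) (st t)
              (ct (fun i => (u i, v i)) + ct fun i => (u' i, v' i)))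
          = (d.factorial : ℝ) * e.factorial * (ifac (st s) * ifac (st t)
            * Lf (d + e) fun y : Fin 3 × Fin 3 → ℕ =>
              (∑ b ∈ Finset.piAntidiag Finset.univ d, (∏ c, ((y c).choose (b c) : ℝ))
                * (φ q s (rowS b) * φ q t (colS b))) * Vx S P (mk (st s) (st t) y)) := by
      intro s t
      have h3 : ∑ u : Fin d → Fin 3, ∑ u' : Fin e → Fin 3, ∑ v : Fin d → Fin 3,
          ∑ v' : Fin e → Fin 3,
          ifac (st s) * φ q s (ct u) * (ifac (st t) * φ q t (ct v))
            * Vx S P (mk (st s) (st t)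
              (ct (fun i => (u i, v i)) + ct fun i => (u' i, v' i)))
          = ∑ u : Fin d → Fin 3, ∑ v : Fin d → Fin 3, ∑ u' : Fin e → Fin 3,
            ∑ v' : Fin e → Fin 3,
          ifac (st s) * φ q s (ct u) * (ifac (st t) * φ q t (ct v))
            * Vx S P (mk (st s) (st t)
              (ct (fun i => (u i, v i)) + ct fun i => (u' i, v' i))) :=
        Finset.sum_congr rfl fun u _ => Finset.sum_comm
      rw [h3, sum_pairs d fun u v => ∑ u' : Fin e → Fin 3, ∑ v' : Fin e → Fin 3,
          ifac (st s) * φ q s (ct u) * (ifac (st t) * φ q t (ct v))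
            * Vx S P (mk (st s) (st t)
              (ct (fun i => (u i, v i)) + ct fun i => (u' i, v' i)))]
      have h4 : ∀ W : Fin d → Fin 3 × Fin 3,
          ∑ u' : Fin e → Fin 3, ∑ v' : Fin e → Fin 3,
          ifac (st s) * φ q s (ct fun i => (W i).1) * (ifac (st t) * φ q t (ct fun i => (W i).2))
            * Vx S P (mk (st s) (st t)
              (ct (fun i => ((W i).1, (W i).2)) + ct fun i => (u' i, v' i)))
          = ∑ W' : Fin e → Fin 3 × Fin 3,
            (fun b => ifac (st s) * ifac (st t) * (φ q s (rowS b) * φ q t (colS b))) (ct W)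
              * (fun y => Vx S P (mk (st s) (st t) y)) (ct W + ct W') := by
        intro W
        rw [sum_pairs e fun u' v' =>
          ifac (st s) * φ q s (ct fun i => (W i).1) * (ifac (st t) * φ q t (ct fun i => (W i).2))
            * Vx S P (mk (st s) (st t)
              (ct (fun i => ((W i).1, (W i).2)) + ct fun i => (u' i, v' i)))]
        refine Finset.sum_congr rfl fun W' _ => ?_
        simp only [Prod.mk.eta, row_ct, col_ct]
        ring
      refine (Finset.sum_congr rfl fun W _ => h4 W).trans ?_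
      refine (words hs hw d e (fun y => Vx S P (mk (st s) (st t) y))
        fun b => ifac (st s) * ifac (st t) * (φ q s (rowS b) * φ q t (colS b))).trans ?_
      congr 1
      rw [← Lf_mul]
      congr 1
      funext y
      rw [← mul_assoc, Finset.mul_sum]
      congr 1
      exact Finset.sum_congr rfl fun b _ => by ring
    have h5 : ∀ s : Fin n,
        ∑ u : Fin d → Fin 3, ∑ u' : Fin e → Fin 3, ∑ t : Fin n, ∑ v : Fin d → Fin 3,
          ∑ v' : Fin e → Fin 3,
          ifac (st s) * φ q s (ct u) * (ifac (st t) * φ q t (ct v))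
            * Vx S P (mk (st s) (st t)
              (ct (fun i => (u i, v i)) + ct fun i => (u' i, v' i)))
          = (d.factorial : ℝ) * e.factorial * ∑ t, (ifac (st s) * ifac (st t)
            * Lf (d + e) fun y : Fin 3 × Fin 3 → ℕ =>
              (∑ b ∈ Finset.piAntidiag Finset.univ d, (∏ c, ((y c).choose (b c) : ℝ))
                * (φ q s (rowS b) * φ q t (colS b))) * Vx S P (mk (st s) (st t) y)) := by
      intro s
      rw [Finset.mul_sum, ← Finset.sum_congr rfl fun t _ => h2 s t]
      calc _ = ∑ u : Fin d → Fin 3, ∑ t : Fin n, ∑ u' : Fin e → Fin 3, ∑ v : Fin d → Fin 3,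
          ∑ v' : Fin e → Fin 3,
          ifac (st s) * φ q s (ct u) * (ifac (st t) * φ q t (ct v))
            * Vx S P (mk (st s) (st t)
              (ct (fun i => (u i, v i)) + ct fun i => (u' i, v' i))) :=
            Finset.sum_congr rfl fun u _ => Finset.sum_comm
        _ = _ := Finset.sum_comm
    simp only [h5] at h
    rw [← Finset.mul_sum] at h
    exact nonneg_of_mul_nonneg_right h (by positivity)
  have h6 : ∀ s t : Fin n, ifac (st s) * ifac (st t)
      * (Lf (d + e) fun y : Fin 3 × Fin 3 → ℕ =>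
        (∑ b ∈ Finset.piAntidiag Finset.univ d, (∏ c, ((y c).choose (b c) : ℝ))
          * ∑ q, φ q s (rowS b) * φ q t (colS b)) * Vx S P (mk (st s) (st t) y))
      = ∑ q, ifac (st s) * ifac (st t)
      * Lf (d + e) fun y : Fin 3 × Fin 3 → ℕ =>
        (∑ b ∈ Finset.piAntidiag Finset.univ d, (∏ c, ((y c).choose (b c) : ℝ))
          * (φ q s (rowS b) * φ q t (colS b))) * Vx S P (mk (st s) (st t) y) := by
    intro s t
    rw [← Finset.mul_sum, ← Lf_sum]
    congr 2
    funext y
    rw [← Finset.sum_mul, Finset.sum_comm]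
    congr 1
    exact Finset.sum_congr rfl fun b _ => by rw [Finset.mul_sum]
  have h7 : ∑ s, ∑ t, ifac (st s) * ifac (st t) * (Lf (d + e) fun y : Fin 3 × Fin 3 → ℕ =>
        (∑ b ∈ Finset.piAntidiag Finset.univ d, (∏ c, ((y c).choose (b c) : ℝ))
          * ∑ q, φ q s (rowS b) * φ q t (colS b)) * Vx S P (mk (st s) (st t) y))
      = ∑ q, ∑ s, ∑ t, ifac (st s) * ifac (st t)
      * Lf (d + e) fun y : Fin 3 × Fin 3 → ℕ =>
        (∑ b ∈ Finset.piAntidiag Finset.univ d, (∏ c, ((y c).choose (b c) : ℝ))
          * (φ q s (rowS b) * φ q t (colS b))) * Vx S P (mk (st s) (st t) y) := by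
    simp only [h6]
    refine (Finset.sum_congr rfl fun s _ => Finset.sum_comm).trans ?_
    exact Finset.sum_comm
  rw [h7]
  exact Finset.sum_nonneg fun q _ => key q

end A602.S6.H15
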